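import Pool.Agent.P.MP_a68a03_ag.Macaulay

/-!
The growth step: adding one component of dimension `e` to a scheme raises the Macaulay type.
-/

namespace Pool.Agent.P.MP_a68a03_ag

open Finset Function

/-- the vectors lexicographically below `a` -/
def below {m : ℕ} (a : Fin m → ℕ) : Set (Fin m → ℕ) := {g | toLex g < toLex a}

theorem pow_le_card_simplex {e w u : ℕ} (h : e * w ≤ u) : (w + 1) ^ e ≤ (simplex e u).card := by
  have h1 : (Fintype.piFinset fun _ : Fin e => range (w + 1)) ⊆ simplex e u := by
    intro x hx
    rw [mem_simplex]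
    simp only [Fintype.mem_piFinset, mem_range] at hx
    calc ∑ i, x i ≤ ∑ _i : Fin e, w := sum_le_sum fun i _ => by have := hx i; omega
      _ = e * w := by simp
      _ ≤ u := h
  simpa using card_le_card h1

theorem prod_range_ite (m k a : ℕ) :
    ∏ i ∈ range m, (if k ≤ i then a else 1) = a ^ (m - k) := by
  induction m with
  | zero => simp
  | succ m ih =>
    rw [prod_range_succ, ih]
    split_ifs with h
    · rw [show m + 1 - k = (m - k) + 1 by omega, pow_succ]
    · rw [show m + 1 - k = m - k by omega, mul_one]

theorem agree_of_between {m : ℕ} {a g : Fin m → ℕ} {h : Fin m} (ha : ∀ i, h < i → a i = 0)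
    (h1 : toLex a ≤ toLex g) (h2 : toLex g < toLex (a + Pi.single h 1)) :
    ∀ i, i ≤ h → g i = a i := by
  intro i
  induction i using WellFoundedLT.induction with
  | ind i ih =>
    intro hi
    have k1 : a i ≤ g i := Pi.apply_le_of_toLex h1 fun j hj => (ih j hj (hj.le.trans hi)).symm
    obtain ⟨l, hl1, hl2⟩ := h2
    simp only [Pi.toLex_apply, Pi.add_apply] at hl1 hl2
    rcases lt_trichotomy l i with hli | hli | hli
    · have := ih l hli (hli.le.trans hi)
      rw [Pi.single_eq_of_ne (hli.trans_le hi).ne] at hl2
      omega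
    · subst hli
      by_cases hlh : l = h
      · subst hlh
        simp at hl2
        omega
      · rw [Pi.single_eq_of_ne hlh] at hl2
        omega
    · have k2 := hl1 i hli
      by_cases hih : i = h
      · subst hih
        rw [ha l hli, Pi.single_eq_of_ne hli.ne'] at hl2
        omega
      · rw [Pi.single_eq_of_ne hih] at k2
        omega

theorem growth_step {m : ℕ} (O : ℕ → Finset (Fin (m + 1) → ℕ))
    (hO : ∀ t, ∀ x ∈ O t, ∑ i, x i = t)
    (hsh : ∀ t p x, x + Pi.single p 1 ∈ O (t + 1) → x ∈ O t)
    (a : Fin m → ℕ) (h : Fin m) (ha : ∀ i, h < i → a i = 0) (c : ℕ)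
    (hc : ∀ u, cnt (below a) (c + u) + (simplex (m - (h + 1)) u).card ≤ (O (c + u)).card) (t : ℕ) :
    cnt (below (a + Pi.single h 1)) t ≤ (O t).card := by
  classical
  by_contra hcon
  push Not at hcon
  set U : Set (Fin m → ℕ) :=
    {g | ∃ b, toLex b < toLex (a + Pi.single h 1) ∧ ∑ i, b i ≤ t ∧ toLex g ≤ toLex b} with hU
  have hUl : LexLower U := by
    rintro x y hxy ⟨b, hb1, hb2, hb3⟩
    exact ⟨b, hb1, hb2, hxy.le.trans hb3⟩
  have k0 : (O t).card < cnt U t := by
    refine hcon.trans_le (card_le_card ?_)
    intro x hx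
    simp only [mem_filter, mem_simplex] at hx ⊢
    exact ⟨hx.1, x, hx.2, hx.1, le_rfl⟩
  have k1 : ∀ s, (O (t + s)).card < cnt U (t + s) := by
    intro s
    induction s with
    | zero => exact k0
    | succ s ih =>
      by_contra hle
      push Not at hle
      have := macH m U hUl (t + s) (O (t + s + 1)) (O (t + s)) (hO _) (hsh _) hle
      omega
  have k2 : ∀ s, cnt U s ≤ cnt (below a) s +
      (if h.val + 1 < m then t + 1 else 1) * (s + 1) ^ (m - (h + 2)) := by
    intro s
    unfold cnt
    have h5 := card_filter_add_card_filter_not (s := (simplex m s).filter fun g => g ∈ U)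
      (fun x => x ∈ below a)
    have h6 : (((simplex m s).filter fun g => g ∈ U).filter fun x => x ∈ below a).card ≤
        ((simplex m s).filter fun g => g ∈ below a).card := by
      apply card_le_card
      intro x hx
      simp only [mem_filter] at hx ⊢
      exact ⟨hx.1.1, hx.2⟩
    have h7 : (((simplex m s).filter fun g => g ∈ U).filter fun x => ¬ x ∈ below a) ⊆
        Fintype.piFinset fun i : Fin m =>
          if i ≤ h then {a i} else if i.val = h + 1 then range (t + 1) else range (s + 1) := by
      intro x hx
      simp only [mem_filter, mem_simplex] at hx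
      obtain ⟨⟨hx1, b, hb1, hb2, hb3⟩, hx2⟩ := hx
      have hx3 : toLex a ≤ toLex x := not_lt.mp hx2
      have e1 := agree_of_between ha hx3 (hb3.trans_lt hb1)
      have e2 := agree_of_between ha (hx3.trans hb3) hb1
      rw [Fintype.mem_piFinset]
      intro i
      split_ifs with hi1 hi2
      · simpa using e1 i hi1
      · have e3 : x i ≤ b i := Pi.apply_le_of_toLex hb3 fun j hj => by
          have hj' : j ≤ h := by
            rw [Fin.le_def]; rw [Fin.lt_def] at hj; omega
          rw [e1 j hj', e2 j hj']
        have := single_le_sum (f := b) (fun _ _ => Nat.zero_le _) (mem_univ i)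
        rw [mem_range]; omega
      · have := single_le_sum (f := x) (fun _ _ => Nat.zero_le _) (mem_univ i)
        rw [mem_range]; omega
    have h8 := card_le_card h7
    rw [Fintype.card_piFinset] at h8
    have h9 : ∏ i : Fin m, (if i ≤ h then ({a i} : Finset ℕ) else if i.val = h + 1 then range (t + 1)
        else range (s + 1)).card =
        (if h.val + 1 < m then t + 1 else 1) * (s + 1) ^ (m - (h + 2)) := by
      rw [← prod_range_ite, ← Fin.prod_univ_eq_prod_range (fun i => if h.val + 2 ≤ i then s + 1 else 1)]
      have : (if h.val + 1 < m then t + 1 else 1) =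
          ∏ i : Fin m, (if i.val = h + 1 then t + 1 else 1) := by
        rw [Fin.prod_univ_eq_prod_range (fun i => if i = h.val + 1 then t + 1 else 1)]
        rw [prod_ite_eq']
        simp
      rw [this, ← prod_mul_distrib]
      refine prod_congr rfl fun i _ => ?_
      simp only [Fin.le_def]
      split_ifs <;> first | omega | simp
    omega
  set e := m - (h + 1) with he
  set w := (t + 1) * (c + e + t + 1) ^ (e - 1) with hw
  have k3 := hc (e * w + t)
  have k4 := k1 (c + e * w)
  have k5 := k2 (c + (e * w + t))
  have k6 := pow_le_card_simplex (e := e) (w := w) (u := e * w + t) (by omega)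
  rw [show t + (c + e * w) = c + (e * w + t) by omega] at k4
  have k7 : (w + 1) ^ e <
      (if h.val + 1 < m then t + 1 else 1) * (c + (e * w + t) + 1) ^ (m - (h + 2)) := by omega
  split_ifs at k7 with hm
  · obtain ⟨e', he'⟩ : ∃ e', e = e' + 1 := ⟨e - 1, by omega⟩
    rw [show m - (h + 2) = e' by omega] at k7
    rw [he'] at k7 hw
    simp only [Nat.add_sub_cancel] at hw
    have k8 : c + ((e' + 1) * w + t) + 1 ≤ (c + (e' + 1) + t + 1) * (w + 1) := by nlinarith
    have k9 := Nat.pow_le_pow_left k8 e'
    rw [mul_pow] at k9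
    have k10 : (t + 1) * (c + ((e' + 1) * w + t) + 1) ^ e' ≤ w * (w + 1) ^ e' := by
      calc _ ≤ (t + 1) * ((c + (e' + 1) + t + 1) ^ e' * (w + 1) ^ e') := Nat.mul_le_mul_left _ k9
        _ = w * (w + 1) ^ e' := by rw [← mul_assoc, ← hw]
    rw [pow_succ] at k7
    nlinarith [Nat.zero_le ((w + 1) ^ e')]
  · rw [show m - (h + 2) = 0 by omega, show e = 0 by omega] at k7
    simp at k7

end Pool.Agent.P.MP_a68a03_ag
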