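import Pool.Agent.P.MP_a68a03_ag.Growth

/-!
Hilbert functions of homogeneous ideals via leading monomials.
-/

namespace Pool.Agent.P.MP_a68a03_ag

open Finset Function MvPolynomial Module

variable {K : Type*} [Field K]

/-- the lexicographic monomial order -/
noncomputable abbrev mo (n : ℕ) : MonomialOrder (Fin n) := MonomialOrder.lex

theorem linearIndependent_of_degree {n : ℕ} {ι : Type*} (f : ι → MvPolynomial (Fin n) K)
    (h0 : ∀ i, f i ≠ 0) (hinj : Injective fun i => (mo n).degree (f i)) :
    LinearIndependent K f := by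
  classical
  rw [linearIndependent_iff']
  intro s g hsum
  by_contra hne
  push Not at hne
  obtain ⟨i0, hi0, hg0⟩ := hne
  obtain ⟨i, hi, hmax⟩ := exists_max_image (s.filter fun i => g i ≠ 0)
    (fun i => (mo n).toSyn ((mo n).degree (f i))) ⟨i0, by simp [hi0, hg0]⟩
  rw [mem_filter] at hi
  have h1 := congrArg (coeff ((mo n).degree (f i))) hsum
  rw [coeff_sum, sum_eq_single i] at h1
  · simp only [coeff_smul, smul_eq_mul, coeff_zero, mul_eq_zero] at h1
    rcases h1 with h1 | h1
    · exact hi.2 h1
    · exact h0 i (MonomialOrder.coeff_degree_eq_zero_iff.mp h1)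
  · intro j hj hji
    by_cases hgj : g j = 0
    · simp [hgj]
    · have h2 := hmax j (by simp [hj, hgj])
      have h3 : (mo n).toSyn ((mo n).degree (f j)) ≠ (mo n).toSyn ((mo n).degree (f i)) :=
        fun h => hji (hinj ((mo n).toSyn.injective h))
      simp only [coeff_smul, smul_eq_mul, mul_eq_zero]
      right
      exact MonomialOrder.coeff_eq_zero_of_lt (lt_of_le_of_ne h2 h3)
  · intro h; exact absurd hi.1 h

/-- `g` is the leading exponent of a nonzero member of `W` -/
def IsLead {n : ℕ} (W : Submodule K (MvPolynomial (Fin n) K)) (g : Fin n → ℕ) : Prop :=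
  ∃ f ∈ W, f ≠ 0 ∧ ⇑((mo n).degree f) = g

theorem sum_degree_of_hom {n t : ℕ} {f : MvPolynomial (Fin n) K} (hf : f.IsHomogeneous t)
    (h0 : f ≠ 0) : ∑ i, (mo n).degree f i = t := by
  have h1 := MonomialOrder.degree_mem_support (m := mo n) h0
  have h2 := hf (mem_support_iff.mp h1)
  rw [← h2, Finsupp.weight_apply, Finsupp.sum_fintype] <;> simp

instance finite_hom (n t : ℕ) : Module.Finite K (homogeneousSubmodule (Fin n) K t) :=
  Module.Finite.iff_fg.mpr (homogeneousSubmodule_fg (Fin n) K t)

open Classical in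
theorem finrank_eq_card_lead {n t : ℕ} (W : Submodule K (MvPolynomial (Fin n) K))
    (hW : W ≤ homogeneousSubmodule (Fin n) K t) :
    finrank K W = ((Finset.Nat.antidiagonalTuple n t).filter (IsLead W)).card := by
  have : Module.Finite K W := Submodule.finiteDimensional_of_le hW
  set L := (Finset.Nat.antidiagonalTuple n t).filter (IsLead W) with hL
  apply le_antisymm
  · let φ : W →ₗ[K] (L → K) := LinearMap.pi fun g =>
      (lcoeff K (Finsupp.equivFunOnFinite.symm g.1)).comp W.subtype
    have hφ : Injective φ := by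
      rw [← LinearMap.ker_eq_bot, LinearMap.ker_eq_bot']
      intro f hf
      by_contra h0
      have h0' : (f : MvPolynomial (Fin n) K) ≠ 0 := fun h => h0 (Subtype.ext h)
      have hm : ⇑((mo n).degree (f : MvPolynomial (Fin n) K)) ∈ L := by
        rw [hL, mem_filter, Finset.Nat.mem_antidiagonalTuple]
        exact ⟨sum_degree_of_hom (hW f.2) h0', f, f.2, h0', rfl⟩
      have := congrFun hf ⟨_, hm⟩
      simp only [φ, LinearMap.pi_apply, LinearMap.comp_apply, Submodule.subtype_apply,
        lcoeff_apply, Finsupp.equivFunOnFinite_symm_coe, Pi.zero_apply] at this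
      exact h0' (MonomialOrder.coeff_degree_eq_zero_iff.mp this)
    have := LinearMap.finrank_le_finrank_of_injective hφ
    simpa using this
  · have h1 : ∀ g : L, ∃ f ∈ W, f ≠ 0 ∧ ⇑((mo n).degree f) = g.1 := fun g => (mem_filter.mp g.2).2
    choose f hf1 hf2 hf3 using h1
    have h2 : LinearIndependent K f := by
      apply linearIndependent_of_degree f hf2
      intro a b hab
      apply Subtype.ext
      rw [← hf3 a, ← hf3 b]
      exact congrArg _ hab
    have h3 : LinearIndependent K (fun g : L => (⟨f g, hf1 g⟩ : W)) :=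
      LinearIndependent.of_comp W.subtype h2
    simpa using h3.fintype_card_le_finrank

/-- the degree `t` part of an ideal -/
noncomputable def part {n : ℕ} (I : Ideal (MvPolynomial (Fin n) K)) (t : ℕ) :
    Submodule K (MvPolynomial (Fin n) K) :=
  (I.restrictScalars K) ⊓ homogeneousSubmodule (Fin n) K t

theorem mem_part {n t : ℕ} {I : Ideal (MvPolynomial (Fin n) K)} {f : MvPolynomial (Fin n) K} :
    f ∈ part I t ↔ f ∈ I ∧ f.IsHomogeneous t := Iff.rfl

theorem part_le {n t : ℕ} (I : Ideal (MvPolynomial (Fin n) K)) :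
    part I t ≤ homogeneousSubmodule (Fin n) K t := inf_le_right

instance finite_part {n t : ℕ} (I : Ideal (MvPolynomial (Fin n) K)) :
    Module.Finite K (part I t) := Submodule.finiteDimensional_of_le (part_le I)

open Classical in
/-- standard monomials of degree `t` -/
noncomputable def std {n : ℕ} (I : Ideal (MvPolynomial (Fin n) K)) (t : ℕ) : Finset (Fin n → ℕ) :=
  (Finset.Nat.antidiagonalTuple n t).filter fun g => ¬ IsLead (part I t) g

theorem card_std_add {n : ℕ} (I : Ideal (MvPolynomial (Fin n) K)) (t : ℕ) :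
    (std I t).card + finrank K (part I t) = (Finset.Nat.antidiagonalTuple n t).card := by
  classical
  rw [finrank_eq_card_lead _ (part_le I), add_comm, std]
  convert card_filter_add_card_filter_not (s := Finset.Nat.antidiagonalTuple n t)
    (IsLead (part I t))

theorem std_sum {n : ℕ} (I : Ideal (MvPolynomial (Fin n) K)) (t : ℕ) :
    ∀ x ∈ std I t, ∑ i, x i = t := by
  classical
  intro x hx
  simp only [std, mem_filter] at hx
  exact Finset.Nat.mem_antidiagonalTuple.mp hx.1

theorem std_shadow {n : ℕ} (I : Ideal (MvPolynomial (Fin n) K)) (t : ℕ) (p : Fin n)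
    (x : Fin n → ℕ) (hx : x + Pi.single p 1 ∈ std I (t + 1)) : x ∈ std I t := by
  have h1 := std_sum I _ _ hx
  rw [sum_add_single] at h1
  simp only [std, mem_filter, Finset.Nat.mem_antidiagonalTuple] at hx ⊢
  refine ⟨by omega, ?_⟩
  rintro ⟨f, hf, h0, rfl⟩
  apply hx.2
  refine ⟨f * X p, ⟨I.mul_mem_right _ hf.1, hf.2.mul (isHomogeneous_X K p)⟩,
    mul_ne_zero h0 (X_ne_zero p), ?_⟩
  rw [MonomialOrder.degree_mul h0 (X_ne_zero p), MonomialOrder.degree_X]
  funext i
  simp [Finsupp.single_apply, Pi.single_apply, eq_comm]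

theorem finrank_hom (n t : ℕ) : finrank K (homogeneousSubmodule (Fin n) K t) =
    (Finset.Nat.antidiagonalTuple n t).card := by
  classical
  rw [finrank_eq_card_lead _ le_rfl, filter_true_of_mem]
  intro g hg
  rw [Finset.Nat.mem_antidiagonalTuple] at hg
  refine ⟨monomial (Finsupp.equivFunOnFinite.symm g) 1, isHomogeneous_monomial _ ?_, by simp, ?_⟩
  · rw [Finsupp.degree_eq_sum]
    simpa using hg
  · simp [MonomialOrder.degree_monomial]

theorem card_tuple_succ (e u : ℕ) :
    (Finset.Nat.antidiagonalTuple (e + 1) u).card = (simplex e u).card := by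
  have := card_init (m := e) Set.univ u
  simpa [cnt] using this

theorem finrank_part_step {n e c u : ℕ} (J P : Ideal (MvPolynomial (Fin n) K)) [P.IsPrime]
    (f : MvPolynomial (Fin n) K) (hfJ : f ∈ J) (hfP : f ∉ P) (hf : f.IsHomogeneous c)
    (ι : Fin (e + 1) → Fin n) (hι : ∀ g, rename ι g ∈ P → g = (0 : MvPolynomial _ K)) :
    finrank K (part (J ⊓ P) (c + u)) + (simplex e u).card ≤ finrank K (part J (c + u)) := by
  let ψ : MvPolynomial (Fin (e + 1)) K →ₗ[K] MvPolynomial (Fin n) K :=
    (LinearMap.mulLeft K f).comp (rename ι).toLinearMap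
  have hψ : ∀ g, ψ g = f * rename ι g := fun g => rfl
  have hP : ∀ g, ψ g ∈ P → g = 0 := by
    intro g hg
    rw [hψ] at hg
    exact hι g ((‹P.IsPrime›.mem_or_mem hg).resolve_left hfP)
  have hinj : Injective ψ := by
    rw [← LinearMap.ker_eq_bot, LinearMap.ker_eq_bot']
    intro g hg
    exact hP g (hg ▸ P.zero_mem)
  set V := (homogeneousSubmodule (Fin (e + 1)) K u).map ψ with hV
  have h1 : finrank K V = (simplex e u).card := by
    rw [← card_tuple_succ, ← finrank_hom (K := K)]
    exact (LinearEquiv.finrank_eq (Submodule.equivMapOfInjective ψ hinj _)).symm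
  have h2 : V ≤ part J (c + u) := by
    rintro _ ⟨g, hg, rfl⟩
    rw [mem_part, hψ]
    exact ⟨J.mul_mem_right _ hfJ, hf.mul (IsHomogeneous.rename_isHomogeneous hg)⟩
  have h3 : part (J ⊓ P) (c + u) ≤ part J (c + u) := fun g hg => ⟨hg.1.1, hg.2⟩
  have h4 : part (J ⊓ P) (c + u) ⊓ V = ⊥ := by
    rw [eq_bot_iff]
    rintro _ ⟨h5, g, hg, rfl⟩
    rw [hP g h5.1.2]
    simp
  have : Module.Finite K V := Submodule.finiteDimensional_of_le h2
  have h5 := Submodule.finrank_sup_add_finrank_inf_eq (part (J ⊓ P) (c + u)) V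
  rw [h4, finrank_bot, h1] at h5
  have h6 := Submodule.finrank_mono (sup_le h3 h2)
  omega

theorem exists_indep (n : ℕ) : ∀ (P : Ideal (MvPolynomial (Fin n) K)) [P.IsPrime],
    ∃ (e : ℕ) (ι : Fin e → Fin n), (n : ℕ∞) ≤ e + P.height ∧
      ∀ g, rename ι g ∈ P → g = (0 : MvPolynomial _ K) := by
  induction n with
  | zero =>
    intro P hP
    refine ⟨0, id, by simp, fun g hg => ?_⟩
    rw [eq_C_of_isEmpty g] at hg ⊢
    by_contra h0
    have h1 : coeff 0 g ≠ 0 := fun h => h0 (by simp [h])
    apply hP.ne_top
    apply P.eq_top_of_isUnit_mem hg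
    rw [rename_C]
    exact (IsUnit.mk0 _ h1).map C
  | succ n ih =>
    intro P hP
    set E := finSuccEquiv K n with hE
    set P' : Ideal (Polynomial (MvPolynomial (Fin n) K)) := P.comap E.symm.toRingEquiv with hP'
    have : P'.IsPrime := Ideal.comap_isPrime _ _
    have hmem : ∀ g, E g ∈ P' ↔ g ∈ P := by
      intro g
      simp [hP', Ideal.mem_comap]
    have hht : P'.height = P.height := RingEquiv.height_comap _ _
    set p : Ideal (MvPolynomial (Fin n) K) := P'.comap Polynomial.C with hp
    have : p.IsPrime := Ideal.comap_isPrime _ _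
    obtain ⟨e, ι, h1, h2⟩ := ih p
    have : (p.map Polynomial.C).IsPrime := Ideal.isPrime_map_C_of_isPrime
    have hle : p.map Polynomial.C ≤ P' := Ideal.map_comap_le
    have : (p.map Polynomial.C).LiesOver p := ⟨by
      ext a
      change a ∈ p ↔ Polynomial.C a ∈ p.map Polynomial.C
      rw [Ideal.mem_map_C_iff]
      constructor
      · intro ha k
        rw [Polynomial.coeff_C]
        split_ifs
        · exact ha
        · exact p.zero_mem
      · intro ha
        simpa using ha 0⟩
    have h3 : p.height ≤ (p.map Polynomial.C).height := by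
      rw [Ideal.height_eq_height_add_of_liesOver_of_hasGoingDown p (p.map Polynomial.C)]
      exact le_self_add
    rcases hle.lt_or_eq with hlt | heq
    · refine ⟨e, Fin.succ ∘ ι, ?_, fun g hg => ?_⟩
      · have h4 := Ideal.height_add_one_le_of_lt_of_isPrime hlt
        rw [← hht]
        push_cast
        calc (n : ℕ∞) + 1 ≤ e + p.height + 1 := by gcongr
          _ ≤ e + ((p.map Polynomial.C).height + 1) := by rw [add_assoc]; gcongr
          _ ≤ _ := by gcongr
      · apply h2
        rw [hp, Ideal.mem_comap]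
        rw [← hmem] at hg
        convert hg using 1
        have : (E.toAlgHom.comp (rename (Fin.succ ∘ ι))) =
            (Polynomial.CAlgHom.comp (rename ι) : MvPolynomial (Fin e) K →ₐ[K] _) := by
          ext i : 1
          simp [hE, finSuccEquiv_X_succ]
        exact (DFunLike.congr_fun this g).symm
    · refine ⟨e + 1, Fin.cons 0 (Fin.succ ∘ ι), ?_, fun g hg => ?_⟩
      · rw [← hht, ← heq]
        push_cast
        calc (n : ℕ∞) + 1 ≤ e + p.height + 1 := by gcongr
          _ ≤ e + (p.map Polynomial.C).height + 1 := by gcongr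
          _ = _ := by ring
      · rw [← hmem, ← heq, Ideal.mem_map_C_iff] at hg
        have : (E.toAlgHom.comp (rename (Fin.cons 0 (Fin.succ ∘ ι) : Fin (e + 1) → Fin (n + 1)))) =
            ((Polynomial.mapAlgHom (rename ι)).comp (finSuccEquiv K e).toAlgHom) := by
          ext i : 1
          refine Fin.cases ?_ (fun i => ?_) i
          · simp [hE, finSuccEquiv_X_zero]
          · simp [hE, finSuccEquiv_X_succ]
        have h5 : E (rename (Fin.cons 0 (Fin.succ ∘ ι) : Fin (e + 1) → Fin (n + 1)) g) =
            Polynomial.map (rename ι : MvPolynomial (Fin e) K →ₐ[K] _) (finSuccEquiv K e g) :=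
          DFunLike.congr_fun this g
        rw [h5] at hg
        apply (finSuccEquiv K e).injective
        rw [map_zero]
        ext k : 1
        have h6 := hg k
        rw [Polynomial.coeff_map] at h6
        simpa using h2 _ h6

end Pool.Agent.P.MP_a68a03_ag
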