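import Pool.Agent.P.MP_a68a03_ag.Upper

/-!
The construction attaining the bound: a distraction of a lexicographic segment.
-/

namespace Pool.Agent.P.MP_a68a03_ag

open Finset Function MvPolynomial Module

variable {K : Type*} [Field K]

/-- the linear form `x_i - c x_last` -/
noncomputable def lin {m : ℕ} (i : Fin (m + 1)) (c : K) : MvPolynomial (Fin (m + 1)) K :=
  X i - C c * X (Fin.last m)

/-- the substitution `x_i ↦ c_i x_last` for `i < k` -/
noncomputable def subst {m : ℕ} (c : Fin (m + 1) → K) (k : ℕ) :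
    MvPolynomial (Fin (m + 1)) K →ₐ[K] MvPolynomial (Fin (m + 1)) K :=
  aeval fun i => if i.val < k then C (c i) * X (Fin.last m) else X i

/-- the prime ideal of a linear subspace -/
noncomputable def linPrime {m : ℕ} (c : Fin (m + 1) → K) (k : ℕ) :
    Ideal (MvPolynomial (Fin (m + 1)) K) := RingHom.ker (subst c k)

instance linPrime_isPrime {m : ℕ} (c : Fin (m + 1) → K) (k : ℕ) : (linPrime c k).IsPrime :=
  RingHom.ker_isPrime _

theorem lin_hom {m : ℕ} (i : Fin (m + 1)) (c : K) : (lin i c).IsHomogeneous 1 :=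
  (isHomogeneous_X K i).sub (isHomogeneous_C_mul_X c _)

theorem degree_lin {m : ℕ} (i : Fin (m + 1)) (c : K) (h : i = Fin.last m → c = 0) :
    (mo (m + 1)).degree (lin i c) = Finsupp.single i 1 := by
  by_cases hc : c = 0
  · simp [lin, hc, MonomialOrder.degree_X]
  · have hi : i < Fin.last m := lt_of_le_of_ne (Fin.le_last i) fun h' => hc (h h')
    rw [lin, MonomialOrder.degree_sub_of_lt, MonomialOrder.degree_X]
    rw [MonomialOrder.degree_mul (by simpa using hc) (X_ne_zero _), MonomialOrder.degree_C,
      MonomialOrder.degree_X, MonomialOrder.degree_X, zero_add, MonomialOrder.lex_lt_iff]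
    refine ⟨i, fun j hj => ?_, ?_⟩
    · simp [Finsupp.single_eq_of_ne hj.ne, Finsupp.single_eq_of_ne (hj.trans hi).ne]
    · simp [Finsupp.single_eq_of_ne hi.ne]

theorem lin_ne_zero {m : ℕ} (i : Fin (m + 1)) (c : K) (h : i = Fin.last m → c = 0) :
    lin i c ≠ 0 := by
  apply MonomialOrder.ne_zero_of_degree_ne_zero (m := mo (m + 1))
  rw [degree_lin i c h]
  simp

theorem lin_mem_iff {m k : ℕ} (hk : k ≤ m) (c : Fin (m + 1) → K) (i : Fin (m + 1)) (b : K)
    (h : i = Fin.last m → b = 0) : lin i b ∈ linPrime c k ↔ i.val < k ∧ b = c i := by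
  have h1 : ¬ (Fin.last m).val < k := by simp; omega
  rw [linPrime, RingHom.mem_ker, lin, subst]
  simp only [map_sub, map_mul, aeval_X, aeval_C, if_neg h1, algebraMap_eq]
  split_ifs with hi
  · rw [← sub_mul, ← map_sub, mul_eq_zero, or_iff_left (X_ne_zero _), C_eq_zero, sub_eq_zero]
    simp [hi, eq_comm]
  · simpa [hi, lin] using lin_ne_zero i b h

theorem linPrime_le {m k : ℕ} (c : Fin (m + 1) → K) (Q : Ideal (MvPolynomial (Fin (m + 1)) K))
    (hQ : ∀ i : Fin (m + 1), i.val < k → lin i (c i) ∈ Q) : linPrime c k ≤ Q := by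
  intro f hf
  have h1 : (Ideal.Quotient.mkₐ K Q).comp (subst c k) = Ideal.Quotient.mkₐ K Q := by
    ext i : 1
    simp only [subst, AlgHom.comp_apply, aeval_X, Ideal.Quotient.mkₐ_eq_mk]
    split_ifs with hi
    · exact (Ideal.Quotient.eq.mpr (hQ i hi)).symm
    · rfl
  have h2 := DFunLike.congr_fun h1 f
  rw [linPrime, RingHom.mem_ker] at hf
  rw [AlgHom.comp_apply, hf, map_zero] at h2
  exact Ideal.Quotient.eq_zero_iff_mem.mp h2.symm

theorem height_linPrime {m : ℕ} (c : Fin (m + 1) → K) (k : ℕ) (hk : k ≤ m) :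
    (linPrime c k).height = k := by
  classical
  apply le_antisymm
  · set s : Finset (MvPolynomial (Fin (m + 1)) K) :=
      (univ : Finset (Fin k)).image fun i => lin (Fin.castLE (by omega) i) (c (Fin.castLE (by omega) i))
      with hs
    have h1 : Ideal.span (s : Set (MvPolynomial (Fin (m + 1)) K)) = linPrime c k := by
      apply le_antisymm
      · rw [Ideal.span_le]
        intro f hf
        simp only [hs, coe_image, coe_univ, Set.image_univ, Set.mem_range] at hf
        obtain ⟨i, rfl⟩ := hf
        refine (lin_mem_iff hk c _ _ ?_).mpr ⟨by simp, rfl⟩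
        intro h
        have := congrArg Fin.val h
        simp at this
        omega
      · apply linPrime_le
        intro i hi
        apply Ideal.subset_span
        simp only [hs, coe_image, coe_univ, Set.image_univ, Set.mem_range]
        exact ⟨⟨i, hi⟩, rfl⟩
    have h2 : linPrime c k ∈ (Ideal.span (s : Set (MvPolynomial (Fin (m + 1)) K))).minimalPrimes := by
      rw [h1, Ideal.minimalPrimes_eq_subsingleton_self]
      rfl
    refine (Ideal.height_le_card_of_mem_minimalPrimes_span_finset h2).trans ?_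
    have : s.card ≤ k := card_image_le.trans (by simp)
    exact_mod_cast this
  · induction k with
    | zero => simp
    | succ k ih =>
      have hne : ∀ i : Fin (m + 1), i.val < k + 1 → i = Fin.last m → c i = 0 := by
        intro i hi h
        have := congrArg Fin.val h
        simp at this
        omega
      have h1 : linPrime c k < linPrime c (k + 1) := by
        apply lt_of_le_of_ne
        · apply linPrime_le
          intro i hi
          exact (lin_mem_iff hk c _ _ (hne i (by omega))).mpr ⟨by omega, rfl⟩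
        · intro h
          have h2 : lin ⟨k, by omega⟩ (c ⟨k, by omega⟩) ∈ linPrime c (k + 1) :=
            (lin_mem_iff hk c _ _ (hne _ (by simp))).mpr ⟨by simp, rfl⟩
          rw [← h, lin_mem_iff (by omega) c _ _ (hne _ (by simp))] at h2
          simp at h2
      have h2 := Ideal.height_add_one_le_of_lt_of_isPrime h1
      push_cast
      exact le_trans (by gcongr; exact ih (by omega)) h2

/-- the coefficient used in the `j`-th factor for the variable `i` -/
def co {m : ℕ} (a : ℕ → K) (i : Fin (m + 1)) (j : ℕ) : K := if i = Fin.last m then 0 else a j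

/-- the distraction of a monomial -/
noncomputable def distr {m : ℕ} (a : ℕ → K) (g : Fin (m + 1) → ℕ) : MvPolynomial (Fin (m + 1)) K :=
  ∏ i, ∏ j ∈ range (g i), lin i (co a i j)

theorem co_last {m : ℕ} (a : ℕ → K) (i : Fin (m + 1)) (j : ℕ) (h : i = Fin.last m) :
    co a i j = 0 := by simp [co, h]

theorem distr_hom {m : ℕ} (a : ℕ → K) (g : Fin (m + 1) → ℕ) :
    (distr a g).IsHomogeneous (∑ i, g i) := by
  apply IsHomogeneous.prod
  intro i _
  have := IsHomogeneous.prod (range (g i)) (fun j => lin i (co a i j)) (fun _ => 1)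
    (fun j _ => lin_hom _ _)
  simpa using this

theorem distr_ne_zero {m : ℕ} (a : ℕ → K) (g : Fin (m + 1) → ℕ) : distr a g ≠ 0 := by
  rw [distr, prod_ne_zero_iff]
  intro i _
  rw [prod_ne_zero_iff]
  intro j _
  exact lin_ne_zero _ _ (co_last a i j)

theorem degree_distr {m : ℕ} (a : ℕ → K) (g : Fin (m + 1) → ℕ) :
    ⇑((mo (m + 1)).degree (distr a g)) = g := by
  rw [distr, MonomialOrder.degree_prod]
  · have : ∀ i, (mo (m + 1)).degree (∏ j ∈ range (g i), lin i (co a i j)) =
        Finsupp.single i (g i) := by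
      intro i
      rw [MonomialOrder.degree_prod (fun j _ => lin_ne_zero _ _ (co_last a i j))]
      simp [degree_lin _ _ (co_last a i _)]
    funext l
    simp [this, Finsupp.finsetSum_apply, Finsupp.single_apply]
  · intro i _
    rw [prod_ne_zero_iff]
    intro j _
    exact lin_ne_zero _ _ (co_last a i j)

theorem distr_mem_iff {m : ℕ} (a : ℕ → K) (g : Fin (m + 1) → ℕ)
    (Q : Ideal (MvPolynomial (Fin (m + 1)) K)) [Q.IsPrime] :
    distr a g ∈ Q ↔ ∃ i, ∃ j < g i, lin i (co a i j) ∈ Q := by
  simp [distr, Ideal.IsPrime.prod_mem_iff]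

/-- the point data of the `j`-th component of codimension `k + 1` -/
def pt {m : ℕ} (a : ℕ → K) (ν : Fin (m + 1) → ℕ) (k : Fin m) (j : ℕ) : Fin (m + 1) → K :=
  fun i => if i = k.castSucc then a j else a (ν i)

open Classical in
theorem lower_bound {m r d : ℕ} (a : ℕ → K) (ha : Set.InjOn a (Set.Iic d)) (ν : Fin (m + 1) → ℕ)
    (hν : ∑ i, ν i = d)
    (L : Finset (Fin (m + 1) → ℕ))
    (hL : L = (Finset.Nat.antidiagonalTuple (m + 1) d).filter fun g => toLex ν ≤ toLex g)
    (e : L ≃ Fin r) :
    (∀ i, (distr a (e.symm i).1).IsHomogeneous d) ∧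
      LinearIndependent K (fun i => distr a (e.symm i).1) ∧
      Fin.init ν ≤ dimT (fun i => distr a (e.symm i).1) := by
  have hLm : ∀ g, g ∈ L ↔ ∑ i, g i = d ∧ toLex ν ≤ toLex g := fun g => by
    rw [hL, mem_filter, Finset.Nat.mem_antidiagonalTuple]
  refine ⟨fun i => ?_, ?_, fun k => ?_⟩
  · have := distr_hom a (e.symm i).1
    rwa [((hLm _).mp (e.symm i).2).1] at this
  · apply linearIndependent_of_degree _ (fun i => distr_ne_zero _ _)
    intro i j hij
    have := congrArg (fun x : Fin (m + 1) →₀ ℕ => (⇑x : Fin (m + 1) → ℕ)) hij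
    simp only [degree_distr] at this
    exact e.symm.injective (Subtype.ext this)
  set I := Ideal.span (Set.range fun i => distr a (e.symm i).1) with hI
  have hIle : ∀ Q : Ideal (MvPolynomial (Fin (m + 1)) K), I ≤ Q ↔ ∀ g ∈ L, distr a g ∈ Q := by
    intro Q
    rw [hI, Ideal.span_le]
    constructor
    · intro h g hg
      apply h
      exact ⟨e ⟨g, hg⟩, by simp⟩
    · rintro h _ ⟨i, rfl⟩
      exact h _ (e.symm i).2
  have hνle : ∀ i, ν i ≤ d := fun i =>
    hν ▸ single_le_sum (f := ν) (fun _ _ => Nat.zero_le _) (mem_univ i)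
  have hk : k.val + 1 ≤ m := k.2
  have hlin : ∀ j i j', lin i (co a i j') ∈ linPrime (pt a ν k j) (k + 1) ↔
      i ≤ k.castSucc ∧ a j' = pt a ν k j i := by
    intro j i j'
    rw [lin_mem_iff hk _ _ _ (co_last a i j')]
    have h1 : i.val < k + 1 ↔ i ≤ k.castSucc := by
      rw [Fin.le_def, Fin.val_castSucc]; omega
    rw [h1]
    refine and_congr_right fun hi => ?_
    rw [co, if_neg (lt_of_le_of_lt hi (Fin.castSucc_lt_last k)).ne]
  have hmin : ∀ j < ν k.castSucc, linPrime (pt a ν k j) (k + 1) ∈ I.minimalPrimes := by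
    intro j hj
    refine ⟨⟨inferInstance, (hIle _).mpr fun g hg => ?_⟩, ?_⟩
    · rw [distr_mem_iff]
      rcases ((hLm g).mp hg).2.lt_or_eq with h | h
      · obtain ⟨i, h1, h2⟩ := h
        simp only [Pi.toLex_apply] at h1 h2
        by_cases hi : i < k.castSucc
        · exact ⟨i, ν i, h2, (hlin _ _ _).mpr ⟨hi.le, by simp [pt, hi.ne]⟩⟩
        · refine ⟨k.castSucc, j, ?_, (hlin _ _ _).mpr ⟨le_rfl, by simp [pt]⟩⟩
          rcases (not_lt.mp hi).lt_or_eq with h3 | h3
          · rw [← h1 _ h3]; exact hj
          · rw [h3] at hj ⊢; omega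
      · have h1 : ν = g := toLex.injective h
        exact ⟨k.castSucc, j, h1 ▸ hj, (hlin _ _ _).mpr ⟨le_rfl, by simp [pt]⟩⟩
    · rintro Q ⟨hQ, hIQ⟩ hQP
      apply linPrime_le
      intro i hi
      have hi' : i ≤ k.castSucc := by rw [Fin.le_def, Fin.val_castSucc]; omega
      set g : Fin (m + 1) → ℕ := fun p =>
        (if p ≤ i then ν p else 0) + if p = i then ∑ q, (if i < q then ν q else 0) else 0 with hg
      have hgs : ∑ p, g p = d := by
        simp only [hg, sum_add_distrib, sum_ite_eq', mem_univ, if_true]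
        rw [← sum_add_distrib, ← hν]
        refine sum_congr rfl fun p _ => ?_
        split_ifs with h1 h2 h2
        · exact absurd h1 (not_le.mpr h2)
        · rfl
        · simp
        · exact absurd (not_lt.mp h2) h1
      have hgl : toLex ν ≤ toLex g := by
        by_cases h0 : ∑ q, (if i < q then ν q else 0) = 0
        · apply Pi.toLex_monotone
          intro p
          rw [sum_eq_zero_iff] at h0
          have := h0 p (mem_univ p)
          simp only [hg]
          split_ifs at this ⊢ with h1 h2 h3 h2 h3 <;> omega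
        · apply le_of_lt
          refine ⟨i, fun p hp => ?_, ?_⟩
          · simp [hg, hp.le, hp.ne]
          · simp only [Pi.toLex_apply, hg, le_refl, if_true]
            omega
      obtain ⟨p, j', hj', hmem⟩ := (distr_mem_iff a g Q).mp ((hIle Q).mp hIQ g ((hLm g).mpr ⟨hgs, hgl⟩))
      obtain ⟨h1, h2⟩ := (hlin _ _ _).mp (hQP hmem)
      have hgle : g p ≤ d := hgs ▸ single_le_sum (f := g) (fun _ _ => Nat.zero_le _) (mem_univ p)
      rcases lt_trichotomy p i with h3 | h3 | h3
      · exfalso
        have h4 : g p = ν p := by simp [hg, h3.le, h3.ne]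
        rw [pt, if_neg (h3.trans_le hi').ne] at h2
        have := ha (show j' ≤ d by omega) (hνle p) h2
        omega
      · subst h3
        rw [co, if_neg (lt_of_le_of_lt hi' (Fin.castSucc_lt_last k)).ne, h2] at hmem
        exact hmem
      · exfalso
        have h4 : g p = 0 := by simp [hg, not_le.mpr h3, h3.ne']
        omega
  have hfin : I.minimalPrimes.Finite := Ideal.finite_minimalPrimes_of_isNoetherianRing _ I
  change ν k.castSucc ≤ {P ∈ I.minimalPrimes | P.height = ((k : ℕ) + 1 : ℕ)}.ncard
  have h1 : ((range (ν k.castSucc)).image fun j => linPrime (pt a ν k j) (k + 1)).card =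
      ν k.castSucc := by
    rw [card_image_of_injOn, card_range]
    intro j hj j' hj' h
    simp only [coe_range, Set.mem_Iio] at hj hj'
    have h2 := (hlin j k.castSucc j).mpr ⟨le_rfl, by simp [pt]⟩
    simp only at h
    rw [h, hlin] at h2
    have := hνle k.castSucc
    exact ha (show j ≤ d by omega) (show j' ≤ d by omega) (by simpa [pt] using h2.2)
  rw [← h1, ← Set.ncard_coe_finset]
  refine Set.ncard_le_ncard ?_ (hfin.subset fun P hP => hP.1)
  intro P hP
  simp only [coe_image, coe_range, Set.mem_image, Set.mem_Iio] at hP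
  obtain ⟨j, hj, rfl⟩ := hP
  exact ⟨hmin j hj, height_linPrime _ _ hk⟩

end Pool.Agent.P.MP_a68a03_ag
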