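import Mathlib

/-!
Macaulay's growth theorem for sets of monomials, proved by compressions.
-/

namespace Pool.Agent.P.MP_a68a03_ag

open Finset Function

/-- exponent vectors of total degree at most `t` -/
def simplex (m t : ℕ) : Finset (Fin m → ℕ) :=
  (Fintype.piFinset fun _ => range (t + 1)).filter fun g => ∑ i, g i ≤ t

theorem mem_simplex {m t : ℕ} {g : Fin m → ℕ} : g ∈ simplex m t ↔ ∑ i, g i ≤ t := by
  simp only [simplex, mem_filter, Fintype.mem_piFinset, mem_range, and_iff_right_iff_imp]
  intro h i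
  have := single_le_sum (f := g) (fun _ _ => Nat.zero_le _) (mem_univ i)
  omega

/-- the points of `X` on the line through `g` in direction `j` -/
def line {m : ℕ} (X : Finset (Fin m → ℕ)) (j : Fin m) (g : Fin m → ℕ) : Finset ℕ :=
  (X.filter fun x => update x j 0 = update g j 0).image fun x => x j

theorem mem_line {m : ℕ} {X : Finset (Fin m → ℕ)} {j : Fin m} {g : Fin m → ℕ} {u : ℕ} :
    u ∈ line X j g ↔ update g j u ∈ X := by
  simp only [line, mem_image, mem_filter]
  constructor
  · rintro ⟨x, ⟨hx, h⟩, rfl⟩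
    have : update g j (x j) = x := by
      funext i
      by_cases hi : i = j
      · subst hi; simp
      · have := congrFun h i
        simp only [update_of_ne hi] at this ⊢
        exact this.symm
    rwa [this]
  · intro h
    exact ⟨_, ⟨h, by simp⟩, by simp⟩

theorem line_update {m : ℕ} (X : Finset (Fin m → ℕ)) (j : Fin m) (g : Fin m → ℕ) (u : ℕ) :
    line X j (update g j u) = line X j g := by
  ext v
  simp [mem_line]

/-- down-compression in direction `j` -/
def compress {m : ℕ} (X : Finset (Fin m → ℕ)) (j : Fin m) : Finset (Fin m → ℕ) :=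
  (X.image fun x => update x j 0).biUnion fun b =>
    (range (line X j b).card).image fun u => update b j u

theorem mem_compress {m : ℕ} {X : Finset (Fin m → ℕ)} {j : Fin m} {g : Fin m → ℕ} :
    g ∈ compress X j ↔ g j < (line X j g).card := by
  simp only [compress, mem_biUnion, mem_image, mem_range]
  constructor
  · rintro ⟨b, -, u, hu, rfl⟩
    simpa [line_update] using hu
  · intro h
    obtain ⟨u, hu⟩ : (line X j g).Nonempty := card_pos.mp (by omega)
    refine ⟨update g j 0, ⟨_, mem_line.mp hu, by simp⟩, g j, by simpa [line_update] using h, by simp⟩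

theorem card_compress {m : ℕ} (X : Finset (Fin m → ℕ)) (j : Fin m) :
    (compress X j).card = X.card := by
  rw [compress, card_biUnion]
  · rw [card_eq_sum_card_image (fun x => update x j 0) X]
    refine sum_congr rfl fun b hb => ?_
    obtain ⟨x, -, rfl⟩ := mem_image.mp hb
    rw [card_image_of_injective _ (update_injective _ _), card_range, line, card_image_of_injOn]
    · simp
    · intro y hy z hz hyz
      simp only [coe_filter, Set.mem_ofPred_eq] at hy hz
      have h := hy.2.trans hz.2.symm
      funext i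
      by_cases hi : i = j
      · subst hi; exact hyz
      · have := congrFun h i
        simpa only [update_of_ne hi] using this
  · intro b hb c hc hbc
    obtain ⟨x, -, rfl⟩ := mem_image.mp hb
    obtain ⟨y, -, rfl⟩ := mem_image.mp hc
    simp only [Function.onFun, disjoint_left, mem_image, mem_range]
    rintro _ ⟨u, -, rfl⟩ ⟨v, -, h⟩
    apply hbc
    have := congrArg (fun z => update z j 0) h
    simpa using this.symm

theorem sum_update_eq {m : ℕ} (g : Fin m → ℕ) (j : Fin m) (u : ℕ) :
    ∑ i, update g j u i = u + ∑ i, update g j 0 i := by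
  rw [sum_update_of_mem (mem_univ j), sum_update_of_mem (mem_univ j)]
  simp

theorem compress_subset_simplex {m t : ℕ} {X : Finset (Fin m → ℕ)} (j : Fin m)
    (hX : ∀ x ∈ X, ∑ i, x i ≤ t) : ∀ x ∈ compress X j, ∑ i, x i ≤ t := by
  intro g hg
  rw [mem_compress] at hg
  have h1 : line X j g ⊆ range (t + 1 - ∑ i, update g j 0 i) := by
    intro u hu
    have := hX _ (mem_line.mp hu)
    rw [sum_update_eq] at this
    simp only [mem_range]
    omega
  have h2 := card_le_card h1
  rw [card_range] at h2
  have h3 := sum_update_eq g j (g j)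
  rw [update_eq_self] at h3
  omega

theorem compress_shadow_ne {m : ℕ} {A B : Finset (Fin m → ℕ)} {j p : Fin m} (hp : p ≠ j)
    (h : ∀ x, x + Pi.single p 1 ∈ A → x ∈ B) :
    ∀ x, x + Pi.single p 1 ∈ compress A j → x ∈ compress B j := by
  intro g hg
  rw [mem_compress] at hg ⊢
  have h1 : line A j (g + Pi.single p 1) ⊆ line B j g := by
    intro u hu
    rw [mem_line] at hu ⊢
    apply h
    convert hu using 1
    funext i
    by_cases hi : i = j
    · subst hi; simp [Pi.single_eq_of_ne hp.symm]
    · simp [update_of_ne hi]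
  have h2 := card_le_card h1
  have : (g + Pi.single p 1 : Fin m → ℕ) j = g j := by simp [Pi.single_eq_of_ne hp.symm]
  omega

theorem compress_down {m : ℕ} {A : Finset (Fin m → ℕ)} {j : Fin m} :
    ∀ x, x + Pi.single j 1 ∈ compress A j → x ∈ compress A j := by
  intro g hg
  rw [mem_compress] at hg ⊢
  have h1 : (g + Pi.single j 1 : Fin m → ℕ) = update g j (g j + 1) := by
    funext i
    by_cases hi : i = j
    · subst hi; simp
    · simp [update_of_ne hi, Pi.single_eq_of_ne hi]
  rw [h1, line_update] at hg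
  simp at hg
  omega

theorem line_lemma {a b : Finset ℕ} {e v : ℕ} (ha : ∀ u ∈ a, u ≤ e + 1)
    (h1 : ∀ u ∈ a, u ≤ e → u ∈ b) (h2 : ∀ u, u + 1 ∈ a → u ∈ b) (hv : v < a.card) (hve : v ≤ e) :
    v < b.card := by
  by_cases he : e + 1 ∈ a
  · by_cases h : ∀ u, u + 1 ∈ a → u ∈ a
    · have h3 : ∀ w, w ≤ e + 1 → e + 1 - w ∈ a := by
        intro w
        induction w with
        | zero => simpa using he
        | succ w ih =>
          intro hw
          apply h
          have : e + 1 - (w + 1) + 1 = e + 1 - w := by omega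
          rw [this]
          exact ih (by omega)
      have h4 : range (e + 1) ⊆ b := by
        intro u hu
        rw [mem_range] at hu
        apply h1 _ _ (by omega)
        have := h3 (e + 1 - u) (by omega)
        rwa [show e + 1 - (e + 1 - u) = u by omega] at this
      have := card_le_card h4
      rw [card_range] at this
      omega
    · push Not at h
      obtain ⟨u, hu1, hu2⟩ := h
      have h4 : insert u (a.erase (e + 1)) ⊆ b := by
        intro w hw
        rcases mem_insert.mp hw with rfl | hw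
        · exact h2 _ hu1
        · rw [mem_erase] at hw
          have := ha _ hw.2
          exact h1 _ hw.2 (by omega)
      have h5 := card_le_card h4
      rw [card_insert_of_notMem (by simp [hu2]), card_erase_of_mem he] at h5
      omega
  · have h4 : a ⊆ b := by
      intro w hw
      have := ha _ hw
      have : w ≠ e + 1 := fun h => he (h ▸ hw)
      exact h1 _ hw (by omega)
    have := card_le_card h4
    omega

theorem compress_shadow_zero {m t : ℕ} {A B : Finset (Fin m → ℕ)} {j : Fin m}
    (hA : ∀ x ∈ A, ∑ i, x i ≤ t + 1)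
    (h1 : ∀ x ∈ A, ∑ i, x i ≤ t → x ∈ B) (h2 : ∀ x, x + Pi.single j 1 ∈ A → x ∈ B) :
    ∀ x ∈ compress A j, ∑ i, x i ≤ t → x ∈ compress B j := by
  intro g hg hgt
  rw [mem_compress] at hg ⊢
  have h3 := sum_update_eq g j (g j)
  rw [update_eq_self] at h3
  refine line_lemma (e := t - ∑ i, update g j 0 i) ?_ ?_ ?_ hg (by omega)
  · intro u hu
    have := hA _ (mem_line.mp hu)
    rw [sum_update_eq] at this
    omega
  · intro u hu hue
    rw [mem_line] at hu ⊢
    apply h1 _ hu
    rw [sum_update_eq]
    omega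
  · intro u hu
    rw [mem_line] at hu ⊢
    apply h2
    convert hu using 1
    funext i
    by_cases hi : i = j
    · subst hi; simp
    · simp [update_of_ne hi, Pi.single_eq_of_ne hi]

theorem sum_add_single {m : ℕ} (x : Fin m → ℕ) (p : Fin m) :
    ∑ i, (x + Pi.single p 1 : Fin m → ℕ) i = ∑ i, x i + 1 := by
  simp [sum_add_distrib]

theorem exists_downset {m t : ℕ} (A B : Finset (Fin m → ℕ))
    (hA : ∀ x ∈ A, ∑ i, x i ≤ t + 1)
    (h1 : ∀ x ∈ A, ∑ i, x i ≤ t → x ∈ B) (h2 : ∀ p x, x + Pi.single p 1 ∈ A → x ∈ B)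
    (s : Finset (Fin m)) :
    ∃ A' B' : Finset (Fin m → ℕ), A'.card = A.card ∧ B'.card = B.card ∧
      (∀ x ∈ A', ∑ i, x i ≤ t + 1) ∧ (∀ x ∈ A', ∑ i, x i ≤ t → x ∈ B') ∧
      (∀ p x, x + Pi.single p 1 ∈ A' → x ∈ B') ∧
      ∀ p ∈ s, ∀ x, x + Pi.single p 1 ∈ A' → x ∈ A' := by
  induction s using Finset.induction_on with
  | empty => exact ⟨A, B, rfl, rfl, hA, h1, h2, by simp⟩
  | insert j s hj ih =>
    obtain ⟨A', B', c1, c2, hA', h1', h2', h3'⟩ := ih
    have k1 := compress_subset_simplex j hA'
    have k2 := compress_shadow_zero hA' h1' (h2' j)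
    refine ⟨compress A' j, compress B' j, by rw [card_compress, c1], by rw [card_compress, c2],
      k1, k2, ?_, ?_⟩
    · intro p x hx
      by_cases hp : p = j
      · subst hp
        have := k1 _ hx
        rw [sum_add_single] at this
        exact k2 _ (compress_down _ hx) (by omega)
      · exact compress_shadow_ne hp (h2' p) x hx
    · intro p hp
      by_cases hpj : p = j
      · subst hpj; exact compress_down
      · exact compress_shadow_ne hpj (h3' p (by simpa [hpj] using hp))

/-- lower sets of the lexicographic order -/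
def LexLower {m : ℕ} (U : Set (Fin m → ℕ)) : Prop :=
  ∀ a b, toLex a < toLex b → b ∈ U → a ∈ U

open Classical in
/-- number of points of `U` of total degree at most `t` -/
noncomputable def cnt {m : ℕ} (U : Set (Fin m → ℕ)) (t : ℕ) : ℕ :=
  ((simplex m t).filter fun g => g ∈ U).card

theorem sum_snoc_eq {m : ℕ} (y : Fin m → ℕ) (u : ℕ) :
    ∑ i, (Fin.snoc y u : Fin (m + 1) → ℕ) i = ∑ i, y i + u := by
  simp [Fin.sum_univ_castSucc]

theorem sum_init_eq {m : ℕ} (x : Fin (m + 1) → ℕ) :
    ∑ i, x i = ∑ i, Fin.init x i + x (Fin.last m) := by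
  simp [Fin.sum_univ_castSucc, Fin.init]

theorem eq_of_init_eq {m : ℕ} {x y : Fin (m + 1) → ℕ} (h : Fin.init x = Fin.init y)
    (hs : ∑ i, x i = ∑ i, y i) : x = y := by
  rw [sum_init_eq x, sum_init_eq y, h] at hs
  rw [← Fin.snoc_init_self x, ← Fin.snoc_init_self y, h, show x (Fin.last m) = y (Fin.last m) by omega]

open Classical in
theorem card_init {m : ℕ} (U : Set (Fin m → ℕ)) (t : ℕ) :
    ((Finset.Nat.antidiagonalTuple (m + 1) t).filter
      fun g : Fin (m + 1) → ℕ => (Fin.init g : Fin m → ℕ) ∈ U).card = cnt U t := by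
  unfold cnt
  refine card_bij (fun g _ => Fin.init g) ?_ ?_ ?_
  · intro g hg
    simp only [mem_filter, Finset.Nat.mem_antidiagonalTuple, mem_simplex] at hg ⊢
    have := sum_init_eq g
    exact ⟨by omega, hg.2⟩
  · intro a ha b hb h
    simp only [mem_filter, Finset.Nat.mem_antidiagonalTuple] at ha hb
    exact eq_of_init_eq h (ha.1.trans hb.1.symm)
  · intro y hy
    simp only [mem_filter, mem_simplex] at hy
    refine ⟨Fin.snoc y (t - ∑ i, y i), ?_, by simp⟩
    simp only [mem_filter, Finset.Nat.mem_antidiagonalTuple, sum_snoc_eq, Fin.init_snoc]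
    exact ⟨by omega, hy.2⟩

/-- dehomogenised form of Macaulay's theorem -/
def MacD (m : ℕ) : Prop :=
  ∀ (U : Set (Fin m → ℕ)), LexLower U → ∀ (t : ℕ) (A B : Finset (Fin m → ℕ)),
    (∀ x ∈ A, ∑ i, x i ≤ t + 1) → (∀ x ∈ A, ∑ i, x i ≤ t → x ∈ B) →
    (∀ p x, x + Pi.single p 1 ∈ A → x ∈ B) → cnt U (t + 1) ≤ A.card → cnt U t ≤ B.card

/-- homogeneous form of Macaulay's theorem -/
def MacH (m : ℕ) : Prop :=
  ∀ (U : Set (Fin m → ℕ)), LexLower U → ∀ (t : ℕ) (A B : Finset (Fin (m + 1) → ℕ)),
    (∀ x ∈ A, ∑ i, x i = t + 1) →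
    (∀ p x, x + Pi.single p 1 ∈ A → x ∈ B) → cnt U (t + 1) ≤ A.card → cnt U t ≤ B.card

theorem macH_of_macD {m : ℕ} (h : MacD m) : MacH m := by
  intro U hU t A B hA hAB hc
  have c1 : (A.image Fin.init).card = A.card := by
    apply card_image_of_injOn
    intro a ha b hb hab
    exact eq_of_init_eq hab ((hA a ha).trans (hA b hb).symm)
  refine le_trans (h U hU t (A.image Fin.init) (B.image Fin.init) ?_ ?_ ?_ (by omega)) card_image_le
  · intro y hy
    obtain ⟨x, hx, rfl⟩ := mem_image.mp hy
    have := hA x hx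
    have := sum_init_eq x
    omega
  · intro y hy hyt
    obtain ⟨x, hx, rfl⟩ := mem_image.mp hy
    have h1 := hA x hx
    have h2 := sum_init_eq x
    refine mem_image.mpr ⟨Fin.snoc (Fin.init x) (x (Fin.last m) - 1), hAB (Fin.last m) _ ?_, by simp⟩
    convert hx using 1
    funext i
    refine Fin.lastCases ?_ (fun i => ?_) i
    · simp; omega
    · simp [Fin.init]
  · intro p y hy
    obtain ⟨x, hx, hxy⟩ := mem_image.mp hy
    refine mem_image.mpr ⟨Fin.snoc y (x (Fin.last m)), hAB p.castSucc _ ?_, by simp⟩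
    convert hx using 1
    funext i
    refine Fin.lastCases ?_ (fun i => ?_) i
    · simp
    · have := congrFun hxy i
      simp only [Fin.init, Pi.add_apply] at this
      simp [this, Pi.single_apply]

theorem macD_zero : MacD 0 := by
  intro U _ t A B _ h1 _ hc
  have h2 : A ⊆ B := fun x hx => h1 x hx (by simp)
  have h3 := card_le_card h2
  have h4 : cnt U t ≤ cnt U (t + 1) := by
    apply card_le_card
    intro x hx
    simp only [mem_filter, mem_simplex] at hx ⊢
    exact ⟨by omega, hx.2⟩
  omega

theorem lex_lt_snoc {m : ℕ} {x : Fin (m + 1) → ℕ} {y : Fin m → ℕ} {u : ℕ}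
    (h : toLex (Fin.init x) < toLex y) : toLex x < toLex (Fin.snoc y u : Fin (m + 1) → ℕ) := by
  obtain ⟨i, h1, h2⟩ := h
  refine ⟨i.castSucc, ?_, by simpa [Fin.init] using h2⟩
  intro j hj
  obtain ⟨j', rfl⟩ : ∃ j' : Fin m, j = j'.castSucc :=
    ⟨j.castPred (Fin.ne_last_of_lt hj), by simp⟩
  simpa [Fin.init] using h1 j' (by simpa using hj)

theorem card_eq_sum_levels {m t : ℕ} (A : Finset (Fin m → ℕ)) (hA : ∀ x ∈ A, ∑ i, x i ≤ t) :
    A.card = ∑ i ∈ range (t + 1), (A.filter fun x => ∑ j, x j = i).card := by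
  apply card_eq_sum_card_fiberwise
  intro x hx
  have := hA x hx
  simp only [coe_range, Set.mem_Iio]
  omega

theorem macD_of_macH {m : ℕ} (h : MacH m) : MacD (m + 1) := by
  classical
  intro U hU t A B hA h1 h2 hc
  obtain ⟨A', B', c1, c2, hA', h1', -, h3'⟩ := exists_downset A B hA h1 h2 univ
  rw [← c1] at hc
  rw [← c2]
  -- levels
  set b : ℕ → ℕ := fun i => (A'.filter fun x => ∑ j, x j = i).card with hb
  set g : ℕ → ℕ := fun i =>
    ((Finset.Nat.antidiagonalTuple (m + 1) i).filter fun x => x ∈ U).card with hg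
  have hcnt : ∀ s, cnt U s = ∑ i ∈ range (s + 1), g i := by
    intro s
    unfold cnt
    rw [card_eq_sum_levels (t := s)]
    · refine sum_congr rfl fun i hi => ?_
      simp only [hg]
      congr 1
      ext x
      simp only [mem_filter, mem_simplex, Finset.Nat.mem_antidiagonalTuple]
      rw [mem_range] at hi
      constructor
      · rintro ⟨⟨-, h⟩, h'⟩; exact ⟨h', h⟩
      · rintro ⟨h, h'⟩; exact ⟨⟨by omega, h'⟩, h⟩
    · intro x hx
      exact mem_simplex.mp (mem_filter.mp hx).1
  have hAb : A'.card = ∑ i ∈ range (t + 2), b i := card_eq_sum_levels A' hA'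
  have hBb : ∑ i ∈ range (t + 1), b i ≤ B'.card := by
    have h4 : (A'.filter fun x => ∑ j, x j ≤ t) ⊆ B' := fun x hx =>
      h1' x (mem_filter.mp hx).1 (mem_filter.mp hx).2
    refine le_trans (le_of_eq ?_) (card_le_card h4)
    rw [card_eq_sum_levels (t := t) _ (fun x hx => (mem_filter.mp hx).2)]
    refine sum_congr rfl fun i hi => ?_
    simp only [hb]
    congr 1
    ext x
    rw [mem_range] at hi
    simp only [mem_filter]
    constructor
    · rintro ⟨h, h'⟩; exact ⟨⟨h, by omega⟩, h'⟩
    · rintro ⟨⟨h, -⟩, h'⟩; exact ⟨h, h'⟩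
  rw [hcnt, hAb, sum_range_succ, sum_range_succ b] at hc
  rw [hcnt]
  refine le_trans ?_ hBb
  by_cases hbg : b (t + 1) ≤ g (t + 1)
  · omega
  push Not at hbg
  set U' : Set (Fin m → ℕ) := {y | (Fin.snoc y 0 : Fin (m + 1) → ℕ) ∈ U} with hU'
  have hU'l : LexLower U' := by
    intro a c hac hc
    exact hU _ _ (lex_lt_snoc (by simpa using hac)) hc
  have k1 : ∀ i, g i ≤ cnt U' i := by
    intro i
    rw [← card_init]
    apply card_le_card
    intro x hx
    simp only [mem_filter] at hx ⊢
    refine ⟨hx.1, ?_⟩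
    have : (Fin.snoc (Fin.init x) 0 : Fin (m + 1) → ℕ) ≤ x := by
      intro i
      refine Fin.lastCases ?_ (fun i => ?_) i
      · simp
      · simp [Fin.init]
    rcases (Pi.toLex_monotone this).lt_or_eq with h5 | h5
    · exact hU _ _ h5 hx.2
    · have h6 : (Fin.snoc (Fin.init x) 0 : Fin (m + 1) → ℕ) = x := toLex.injective h5
      show (Fin.snoc (Fin.init x) 0 : Fin (m + 1) → ℕ) ∈ U
      rw [h6]; exact hx.2
  have k2 : cnt U' (t + 1) ≤ g (t + 1) + 1 := by
    rw [← card_init]
    set S := (Finset.Nat.antidiagonalTuple (m + 1) (t + 1)).filter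
      fun x : Fin (m + 1) → ℕ => (Fin.init x : Fin m → ℕ) ∈ U' with hS
    have h5 := card_filter_add_card_filter_not (s := S) (fun x => x ∈ U)
    have h6 : (S.filter fun x => x ∈ U).card ≤ g (t + 1) := by
      apply card_le_card
      intro x hx
      simp only [hS, mem_filter] at hx ⊢
      exact ⟨hx.1.1, hx.2⟩
    have h7 : (S.filter fun x => ¬ x ∈ U).card ≤ 1 := by
      rw [card_le_one]
      intro x hx y hy
      simp only [hS, mem_filter, Finset.Nat.mem_antidiagonalTuple] at hx hy
      rcases lt_trichotomy (toLex (Fin.init x)) (toLex (Fin.init y)) with h8 | h8 | h8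
      · exact absurd (hU _ _ (lex_lt_snoc h8) hy.1.2) hx.2
      · exact eq_of_init_eq (toLex.injective h8) (hx.1.1.trans hy.1.1.symm)
      · exact absurd (hU _ _ (lex_lt_snoc h8) hx.1.2) hy.2
    omega
  have k3 : ∀ w, w ≤ t + 1 → cnt U' (t + 1 - w) ≤ b (t + 1 - w) := by
    intro w
    induction w with
    | zero => intro _; simp only [Nat.sub_zero]; omega
    | succ w ih =>
      intro hw
      have h5 := ih (by omega)
      rw [show t + 1 - w = (t + 1 - (w + 1)) + 1 by omega] at h5
      refine h U' hU'l _ _ _ (fun x hx => (mem_filter.mp hx).2) ?_ h5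
      intro p x hx
      rw [mem_filter] at hx ⊢
      refine ⟨h3' p (mem_univ p) x hx.1, ?_⟩
      have := hx.2
      rw [sum_add_single] at this
      omega
  refine sum_le_sum fun i hi => ?_
  rw [mem_range] at hi
  have := k3 (t + 1 - i) (by omega)
  rw [show t + 1 - (t + 1 - i) = i by omega] at this
  exact (k1 i).trans this

theorem macD (m : ℕ) : MacD m := by
  induction m with
  | zero => exact macD_zero
  | succ m ih => exact macD_of_macH (macH_of_macD ih)

/-- Macaulay's theorem -/
theorem macH (m : ℕ) : MacH m := macH_of_macD (macD m)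

end Pool.Agent.P.MP_a68a03_ag
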