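import Pool.Agent.P.MP_a68a03_ag.Lower

/-!
Assembly of the two bounds.
-/

namespace Pool.Agent.P.MP_a68a03_ag

open Finset Function MvPolynomial Module

theorem card_tuple (m d : ℕ) :
    (Finset.Nat.antidiagonalTuple (m + 1) d).card = (m + d).choose d := by
  have h1 := Finset.card_finsuppAntidiag_nat_eq_choose (s := (univ : Finset (Fin (m + 1)))) d
  rw [Finset.finsuppAntidiag, card_map, card_attach,
    Finset.piAntidiag_univ_fin_eq_antidiagonalTuple] at h1
  rw [h1]
  congr 1
  simp

theorem rank_of_sort {α : Type*} [LinearOrder α] (s : Finset α) (i : ℕ) (hi : i < s.card) :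
    ∃ x ∈ s, (s.sort (· ≥ ·))[i]? = some x ∧ (s.filter fun y => x ≤ y).card = i + 1 := by
  set l := s.sort (· ≥ ·) with hl
  have hlen : l.length = s.card := length_sort _
  have hi' : i < l.length := by omega
  have hs : l.SortedGT := sortedGT_sort s
  have hanti : StrictAnti l.get := hs
  refine ⟨l[i], (mem_sort _).mp (List.getElem_mem hi'), List.getElem?_eq_getElem hi', ?_⟩
  have h1 : (s.filter fun y => l[i] ≤ y) = (Iic (⟨i, hi'⟩ : Fin l.length)).image l.get := by
    ext y
    simp only [mem_filter, mem_image, mem_Iic]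
    constructor
    · rintro ⟨hy, hle⟩
      obtain ⟨j, rfl⟩ := List.get_of_mem ((mem_sort (· ≥ ·)).mpr hy)
      exact ⟨j, hanti.le_iff_ge.mp hle, rfl⟩
    · rintro ⟨j, hj, rfl⟩
      exact ⟨(mem_sort _).mp (List.get_mem l j), hanti.antitone hj⟩
  rw [h1, card_image_of_injective _ hanti.injective]
  simp

variable {K L : Type*} [Field K] [Field L] [Algebra K L]

theorem linearIndependent_map {σ ι : Type*} {F : ι → MvPolynomial σ K}
    (h : LinearIndependent K F) :
    LinearIndependent L fun i => MvPolynomial.map (algebraMap K L) (F i) := by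
  have h1 := Module.Flat.linearIndependent_one_tmul (S := L) h
  have h2 := h1.map' (algebraTensorAlgEquiv (σ := σ) K L).toLinearMap
    (algebraTensorAlgEquiv (σ := σ) K L).toLinearEquiv.ker
  have h3 : (fun i => MvPolynomial.map (algebraMap K L) (F i)) =
      ⇑(algebraTensorAlgEquiv (σ := σ) K L).toLinearMap ∘ fun x => (1 : L) ⊗ₜ[K] F x := by
    funext i
    simp
  rw [h3]
  exact h2

theorem map_distr {m : ℕ} (a : ℕ → K) (g : Fin (m + 1) → ℕ) :
    MvPolynomial.map (algebraMap K L) (distr a g) = distr (fun j => algebraMap K L (a j)) g := by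
  simp only [distr, map_prod, lin, map_sub, map_mul, map_X, map_C, co]
  refine prod_congr rfl fun i _ => prod_congr rfl fun j _ => ?_
  split_ifs <;> simp

theorem main_theorem [Fintype K] {m d r : ℕ} (hm : 1 ≤ m) (hq : d < Fintype.card K)
    (hr1 : 1 ≤ r) (hr2 : r ≤ (m + d).choose d) :
    ∃ ν : Fin (m + 1) → ℕ,
      (((Finset.Nat.antidiagonalTuple (m + 1) d).map toLex.toEmbedding).sort (· ≥ ·))[r - 1]? =
        some (toLex ν) ∧
      IsGreatest {α : Lex (Fin m → ℕ) | ∃ F : Fin r → MvPolynomial (Fin (m + 1)) K,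
        (∀ i, (F i).IsHomogeneous d) ∧ LinearIndependent K F ∧
        α = toLex (dimT fun i => MvPolynomial.map (algebraMap K L) (F i))}
        (toLex (Fin.init ν)) := by
  classical
  obtain ⟨x, hx, h1, h2⟩ := rank_of_sort
    ((Finset.Nat.antidiagonalTuple (m + 1) d).map toLex.toEmbedding) (r - 1)
    (by rw [card_map, card_tuple]; omega)
  obtain ⟨ν, hν, rfl⟩ := mem_map.mp hx
  rw [Finset.Nat.mem_antidiagonalTuple] at hν
  have hr : ((Finset.Nat.antidiagonalTuple (m + 1) d).filter
      fun g => toLex ν ≤ toLex g).card = r := by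
    rw [filter_map, card_map] at h2
    rw [show r = r - 1 + 1 by omega, ← h2]
    congr 1
  have hup : ∀ F : Fin r → MvPolynomial (Fin (m + 1)) K, (∀ i, (F i).IsHomogeneous d) →
      LinearIndependent K F →
      toLex (dimT fun i => MvPolynomial.map (algebraMap K L) (F i)) ≤ toLex (Fin.init ν) :=
    fun F hF hli => upper_bound hm _ (fun i => (hF i).map _) (linearIndependent_map hli) ν hν
      (by convert hr)
  refine ⟨ν, h1, ?_, ?_⟩
  · obtain ⟨b⟩ : Nonempty (Fin (d + 1) ↪ K) :=
      Function.Embedding.nonempty_of_card_le (by simpa using hq)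
    let a : ℕ → K := fun j => if h : j < d + 1 then b ⟨j, h⟩ else 0
    have ha : Set.InjOn a (Set.Iic d) := by
      intro i hi j hj h
      have hi' : i < d + 1 := Nat.lt_succ_of_le hi
      have hj' : j < d + 1 := Nat.lt_succ_of_le hj
      simp only [a, dif_pos hi', dif_pos hj'] at h
      simpa using b.injective h
    have ha' : Set.InjOn (fun j => algebraMap K L (a j)) (Set.Iic d) :=
      fun i hi j hj h => ha hi hj ((algebraMap K L).injective h)
    let e := Finset.equivFinOfCardEq hr
    obtain ⟨k1, k2, -⟩ := lower_bound a ha ν hν _ (by convert rfl) e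
    obtain ⟨-, -, k3⟩ := lower_bound _ ha' ν hν _ (by convert rfl) e
    refine ⟨_, k1, k2, le_antisymm ?_ (hup _ k1 k2)⟩
    simp only [map_distr]
    exact Pi.toLex_monotone k3
  · rintro _ ⟨F, hF, hli, rfl⟩
    exact hup F hF hli

end Pool.Agent.P.MP_a68a03_ag
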