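import Pool.Agent.P.MP_a68a03_ag.Hilbert

/-!
The upper bound for the dim-type.
-/

namespace Pool.Agent.P.MP_a68a03_ag

open Finset Function MvPolynomial Module

variable {K : Type*} [Field K]

theorem exists_hom_notMem {n : ℕ} {P Q : Ideal (MvPolynomial (Fin n) K)}
    (hQ : ∀ f ∈ Q, ∀ k, homogeneousComponent k f ∈ Q) (h : ¬ Q ≤ P) :
    ∃ f c, f ∈ Q ∧ f ∉ P ∧ f.IsHomogeneous c := by
  obtain ⟨g, hgQ, hgP⟩ := SetLike.not_le_iff_exists.mp h
  by_contra hcon
  push Not at hcon
  apply hgP
  rw [← sum_homogeneousComponent g]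
  refine P.sum_mem fun k _ => ?_
  by_contra hk
  exact hcon _ k (hQ g hgQ k) hk (homogeneousComponent_isHomogeneous k g)

theorem exists_hom_inf {n : ℕ} {P : Ideal (MvPolynomial (Fin n) K)} [hP : P.IsPrime]
    (s : Finset (Ideal (MvPolynomial (Fin n) K)))
    (hs : ∀ Q ∈ s, ∀ f ∈ Q, ∀ k, homogeneousComponent k f ∈ Q) (h : ∀ Q ∈ s, ¬ Q ≤ P) :
    ∃ f c, f ∈ s.inf id ∧ f ∉ P ∧ f.IsHomogeneous c := by
  classical
  induction s using Finset.induction_on with
  | empty => exact ⟨1, 0, by simp, (Ideal.ne_top_iff_one P).mp hP.ne_top, isHomogeneous_one _ _⟩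
  | insert Q s hQ ih =>
    obtain ⟨f, c, h1, h2, h3⟩ := ih (fun R hR => hs R (mem_insert_of_mem hR))
      (fun R hR => h R (mem_insert_of_mem hR))
    obtain ⟨g, d, k1, k2, k3⟩ := exists_hom_notMem (hs Q (mem_insert_self _ _))
      (h Q (mem_insert_self _ _))
    refine ⟨g * f, d + c, ?_, fun hm => (hP.mem_or_mem hm).elim k2 h2, k3.mul h3⟩
    rw [inf_insert]
    exact ⟨Q.mul_mem_right _ k1, Ideal.mul_mem_left _ _ h1⟩

open Classical in
theorem hilbert_lower {m : ℕ} (ht : Ideal (MvPolynomial (Fin (m + 1)) K) → Fin m)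
    (s : Finset (Ideal (MvPolynomial (Fin (m + 1)) K)))
    (hprime : ∀ P ∈ s, P.IsPrime) (hhom : ∀ P ∈ s, ∀ f ∈ P, ∀ k, homogeneousComponent k f ∈ P)
    (hinc : ∀ P ∈ s, ∀ Q ∈ s, P ≤ Q → P = Q)
    (hht : ∀ P ∈ s, P.height = ((ht P : ℕ) + 1 : ℕ)) (t : ℕ) :
    cnt (below fun i => (s.filter fun P => ht P = i).card) t ≤ (std (s.inf id) t).card := by
  induction s using Finset.induction_on_max_value ht generalizing t with
  | empty =>
    have : cnt (below fun i => ((∅ : Finset (Ideal (MvPolynomial (Fin (m + 1)) K))).filter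
        fun P => ht P = i).card) t = 0 := by
      unfold cnt
      rw [card_eq_zero, filter_eq_empty_iff]
      rintro x - ⟨i, -, hi⟩
      simp at hi
    omega
  | insert P s hPs hmax ih =>
    have hP : P.IsPrime := hprime P (mem_insert_self _ _)
    have ih' := ih (fun R hR => hprime R (mem_insert_of_mem hR))
      (fun R hR => hhom R (mem_insert_of_mem hR))
      (fun R hR Q hQ => hinc R (mem_insert_of_mem hR) Q (mem_insert_of_mem hQ))
      (fun R hR => hht R (mem_insert_of_mem hR))
    obtain ⟨f, c, hf1, hf2, hf3⟩ := exists_hom_inf (P := P) s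
      (fun R hR => hhom R (mem_insert_of_mem hR))
      (fun R hR hle => hPs (hinc R (mem_insert_of_mem hR) P (mem_insert_self _ _) hle ▸ hR))
    obtain ⟨e, ι, he, hι⟩ := exists_indep (m + 1) P
    rw [hht P (mem_insert_self _ _)] at he
    have he' : m - (ht P + 1) + 1 ≤ e := by
      have h1 : m + 1 ≤ e + (ht P + 1) := by exact_mod_cast he
      have := (ht P).2
      omega
    have hι' : ∀ g, rename (ι ∘ Fin.castLE he') g ∈ P → g = (0 : MvPolynomial _ K) := by
      intro g hg
      rw [← rename_rename] at hg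
      apply rename_injective _ (Fin.castLE_injective he')
      rw [hι _ hg, map_zero]
    have htype : (fun i => ((insert P s).filter fun Q => ht Q = i).card) =
        (fun i => (s.filter fun Q => ht Q = i).card) + Pi.single (ht P) 1 := by
      funext i
      rw [filter_insert, Pi.add_apply]
      split_ifs with hi
      · subst hi
        rw [card_insert_of_notMem (by simp [hPs])]
        simp
      · rw [Pi.single_eq_of_ne (Ne.symm hi), add_zero]
    rw [htype]
    refine growth_step (fun t => std ((insert P s).inf id) t) (std_sum _) (std_shadow _) _ (ht P)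
      ?_ c ?_ t
    · intro i hi
      rw [card_eq_zero, filter_eq_empty_iff]
      intro Q hQ hQi
      exact absurd (hmax Q hQ) (by rw [hQi]; exact not_le.mpr hi)
    · intro u
      have h1 := ih' (c + u)
      have h2 := finrank_part_step (u := u) (s.inf id) P f hf1 hf2 hf3 _ hι'
      have h3 := card_std_add (s.inf id) (c + u)
      have h4 := card_std_add ((insert P s).inf id) (c + u)
      rw [inf_insert, id, inf_comm] at h4 ⊢
      omega

attribute [local instance] MvPolynomial.gradedAlgebra in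
theorem minimalPrime_hom {n r d : ℕ} (F : Fin r → MvPolynomial (Fin n) K)
    (hF : ∀ i, (F i).IsHomogeneous d) {P : Ideal (MvPolynomial (Fin n) K)}
    (hP : P ∈ (Ideal.span (Set.range F)).minimalPrimes) :
    ∀ f ∈ P, ∀ k, homogeneousComponent k f ∈ P := by
  have h1 : (P.homogeneousCore (homogeneousSubmodule (Fin n) K)).toIdeal = P := by
    apply le_antisymm (Ideal.toIdeal_homogeneousCore_le _ _)
    refine hP.2 ⟨hP.1.1.homogeneousCore, ?_⟩ (Ideal.toIdeal_homogeneousCore_le _ _)
    rw [Ideal.span_le]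
    rintro _ ⟨i, rfl⟩
    exact Ideal.mem_homogeneousCore_of_homogeneous_of_mem ⟨d, hF i⟩
      (hP.1.2 (Ideal.subset_span ⟨i, rfl⟩))
  have h2 : P.IsHomogeneous (homogeneousSubmodule (Fin n) K) := by
    rw [Ideal.IsHomogeneous.iff_eq, h1]
  intro f hf k
  exact homogeneousComponent_mem_of_mem h2 hf k

/-- the number of minimal primes of each height `1, ..., m` -/
noncomputable def dimT {m r : ℕ} (F : Fin r → MvPolynomial (Fin (m + 1)) K) : Fin m → ℕ :=
  fun i => {P ∈ (Ideal.span (Set.range F)).minimalPrimes | P.height = ((i : ℕ) + 1 : ℕ)}.ncard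

theorem lex_init_lt {m : ℕ} {x y : Fin (m + 1) → ℕ}
    (h : toLex (Fin.init x) < toLex (Fin.init y)) : toLex x < toLex y := by
  have := lex_lt_snoc (u := y (Fin.last m)) h
  rwa [Fin.snoc_init_self] at this

open Classical in
theorem upper_bound {m r d : ℕ} (hm : 1 ≤ m) (F : Fin r → MvPolynomial (Fin (m + 1)) K)
    (hF : ∀ i, (F i).IsHomogeneous d) (hli : LinearIndependent K F) (ν : Fin (m + 1) → ℕ)
    (hν : ∑ i, ν i = d)
    (hr : ((Finset.Nat.antidiagonalTuple (m + 1) d).filter fun g => toLex ν ≤ toLex g).card = r) :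
    toLex (dimT F) ≤ toLex (Fin.init ν) := by
  set I := Ideal.span (Set.range F) with hI
  have hfin : I.minimalPrimes.Finite := Ideal.finite_minimalPrimes_of_isNoetherianRing _ I
  set s := hfin.toFinset.filter fun P : Ideal (MvPolynomial (Fin (m + 1)) K) =>
    ∃ i : Fin m, P.height = ((i : ℕ) + 1 : ℕ) with hs
  let ht : Ideal (MvPolynomial (Fin (m + 1)) K) → Fin m := fun P =>
    if h : ∃ i : Fin m, P.height = ((i : ℕ) + 1 : ℕ) then h.choose else ⟨0, hm⟩
  have hmem : ∀ P ∈ s, P ∈ I.minimalPrimes := fun P hP => by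
    simpa using (mem_filter.mp hP).1
  have hht : ∀ P ∈ s, P.height = ((ht P : ℕ) + 1 : ℕ) := by
    intro P hP
    have h := (mem_filter.mp hP).2
    simp only [ht, dif_pos h]
    exact h.choose_spec
  have h1 := hilbert_lower ht s (fun P hP => (hmem P hP).1.1)
    (fun P hP => minimalPrime_hom F hF (hmem P hP))
    (fun P hP Q hQ hle => le_antisymm hle ((hmem Q hQ).2 (hmem P hP).1 hle)) hht d
  have htype : (fun i => (s.filter fun P => ht P = i).card) = dimT F := by
    funext i
    rw [dimT, ← Set.ncard_coe_finset]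
    congr 1
    ext P
    simp only [coe_filter, Set.mem_ofPred_eq]
    constructor
    · rintro ⟨hP, rfl⟩
      exact ⟨hmem P hP, hht P hP⟩
    · rintro ⟨hP, hi⟩
      have hPs : P ∈ s := by
        rw [hs, mem_filter]
        exact ⟨by simpa using hP, i, hi⟩
      refine ⟨hPs, ?_⟩
      have h2 := (hht P hPs).symm.trans hi
      have h3 : (ht P : ℕ) + 1 = i + 1 := by exact_mod_cast h2
      exact Fin.ext (by omega)
  rw [htype] at h1
  have h2 : r ≤ finrank K (part (s.inf id) d) := by
    have hmemF : ∀ i, F i ∈ part (s.inf id) d := by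
      intro i
      refine ⟨?_, hF i⟩
      change F i ∈ s.inf id
      rw [Submodule.mem_finsetInf]
      intro P hP
      exact (hmem P hP).1.2 (Ideal.subset_span ⟨i, rfl⟩)
    have h3 : LinearIndependent K (fun i => (⟨F i, hmemF i⟩ : part (s.inf id) d)) :=
      LinearIndependent.of_comp (part (s.inf id) d).subtype hli
    simpa using h3.fintype_card_le_finrank
  have h3 := card_std_add (s.inf id) d
  rw [← card_init] at h1
  have h4 := card_filter_add_card_filter_not (s := Finset.Nat.antidiagonalTuple (m + 1) d)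
    (fun g : Fin (m + 1) → ℕ => (Fin.init g : Fin m → ℕ) ∈ below (dimT F))
  by_contra hcon
  push Not at hcon
  have h5 : ((Finset.Nat.antidiagonalTuple (m + 1) d).filter
      fun g : Fin (m + 1) → ℕ => ¬ (Fin.init g : Fin m → ℕ) ∈ below (dimT F)) ⊆
      ((Finset.Nat.antidiagonalTuple (m + 1) d).filter fun g => toLex ν ≤ toLex g).erase ν := by
    intro g hg
    rw [mem_filter] at hg
    have h6 : toLex ν < toLex g := lex_init_lt (hcon.trans_le (not_lt.mp hg.2))
    rw [mem_erase, mem_filter]
    exact ⟨fun h => by rw [h] at h6; exact lt_irrefl _ h6, hg.1, h6.le⟩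
  have h6 := card_le_card h5
  have h7 : ν ∈ (Finset.Nat.antidiagonalTuple (m + 1) d).filter fun g => toLex ν ≤ toLex g := by
    simp [Finset.Nat.mem_antidiagonalTuple, hν]
  rw [card_erase_of_mem h7, hr] at h6
  have h8 : 0 < r := hr ▸ card_pos.mpr ⟨_, h7⟩
  omega

end Pool.Agent.P.MP_a68a03_ag
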